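import Pool.Agent.Helper892.PB.Cayley

set_option autoImplicit false

open scoped ComplexConjugate

namespace Pool.Agent.Results.MP_640201_an.NotRational

/-- `ℂ^l × ℂ^c`, with points `z = (z', z'')`. -/
abbrev E (l c : ℕ) := (Fin l → ℂ) × (Fin c → ℂ)

/-- An `ℝ^l`-valued Hermitian form `F` on `ℂ^c`, given by `l` Hermitian matrices. -/
structure HForm (l c : ℕ) where
  mat : Fin l → Matrix (Fin c) (Fin c) ℂ
  herm : ∀ i, (mat i).IsHermitian

/-- The vector `F(v, v) ∈ ℝ^l` (the sum is real since the matrices are Hermitian). -/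
def HForm.val {l c : ℕ} (F : HForm l c) (v : Fin c → ℂ) (i : Fin l) : ℝ :=
  (∑ a, ∑ b, F.mat i a b * v a * conj (v b)).re

/-- The quadratic manifold `Im z' = F(z'', z'')`. -/
def HForm.M {l c : ℕ} (F : HForm l c) : Set (E l c) := {z | ∀ i, (z.1 i).im = F.val z.2 i}

/-- The cone condition. The Levi form of `F.M` at each of its points is `F`, so the condition says
that the values `F(v, v)` fill a convex cone that contains no line and has nonempty interior,
and that `F(v, v) ≠ 0` for `v ≠ 0`. -/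
def HForm.ConeCond {l c : ℕ} (F : HForm l c) : Prop :=
  Convex ℝ (Set.range F.val) ∧ (∀ x ∈ Set.range F.val, -x ∈ Set.range F.val → x = 0) ∧
    (interior (Set.range F.val)).Nonempty ∧ ∀ v, v ≠ 0 → F.val v ≠ 0

/-- Tangent space of `M` at `z`: velocity vectors of curves in `M` through `z`. -/
def Tan {V : Type} [NormedAddCommGroup V] [NormedSpace ℝ V] (M : Set V) (z : V) : Set V :=
  {v | ∃ γ : ℝ → V, γ 0 = z ∧ (∀ s, γ s ∈ M) ∧ HasDerivAt γ v 0}

/-- Complex tangent space `T^c_z M = T_z M ∩ i T_z M`. -/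
def TanC {l c : ℕ} (M : Set (E l c)) (z : E l c) : Set (E l c) :=
  {v | v ∈ Tan M z ∧ ∃ w ∈ Tan M z, v = Complex.I • w}

/-- `f` is a CR map of class `C^k` from `M₁` to `M₂`: it maps `M₁` into `M₂`, it is on `M₁` the restriction
of a `C^k` map `g` of the ambient space, and the differential maps `T^c M₁` complex-linearly into `T^c M₂`. -/
def IsCRMap {l c l' c' : ℕ} (k : ℕ) (M₁ : Set (E l c)) (M₂ : Set (E l' c')) (f : E l c → E l' c') : Prop :=
  (∀ z ∈ M₁, f z ∈ M₂) ∧ ∃ g : E l c → E l' c', ContDiff ℝ (k : WithTop ℕ∞) g ∧ (∀ z ∈ M₁, g z = f z) ∧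
    ∀ z ∈ M₁, ∀ v ∈ TanC M₁ z, fderiv ℝ g z v ∈ TanC M₂ (f z) ∧
      fderiv ℝ g z (Complex.I • v) = Complex.I • fderiv ℝ g z v

/-- Each component of `f` is on `M` a quotient `p / q` of polynomials. -/
def IsRationalOn {l c l' c' : ℕ} (M : Set (E l c)) (f : E l c → E l' c') : Prop :=
  (∀ i, ∃ p q : MvPolynomial (Fin l ⊕ Fin c) ℂ, q ≠ 0 ∧ ∀ z ∈ M,
      (f z).1 i * MvPolynomial.eval (Sum.elim z.1 z.2) q = MvPolynomial.eval (Sum.elim z.1 z.2) p) ∧
    ∀ i, ∃ p q : MvPolynomial (Fin l ⊕ Fin c) ℂ, q ≠ 0 ∧ ∀ z ∈ M,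
      (f z).2 i * MvPolynomial.eval (Sum.elim z.1 z.2) q = MvPolynomial.eval (Sum.elim z.1 z.2) p

/-- The assertion of the question for maps of class `C^{s(n)}`, where `n = l₁ + c₁` is the complex dimension
of the space that contains `M₁`. Question Q2 is the case `s(n) = n`. -/
def Rationality (s : ℕ → ℕ) : Prop :=
  ∀ l₁ c₁ l₂ c₂ : ℕ, 1 ≤ l₁ → 1 ≤ c₁ → 1 ≤ l₂ → 1 ≤ c₂ → ∀ (F₁ : HForm l₁ c₁) (F₂ : HForm l₂ c₂),
    F₁.ConeCond → F₂.ConeCond → ∀ f : E l₁ c₁ → E l₂ c₂, IsCRMap (s (l₁ + c₁)) F₁.M F₂.M f →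
      IsRationalOn F₁.M f

/-- The form `|v|²` on `ℂ^c`. -/
def heis (c : ℕ) : HForm 1 c := ⟨fun _ => 1, fun _ => Matrix.isHermitian_one⟩

theorem heis_mat (c : ℕ) (i : Fin 1) (a b : Fin c) :
    (heis c).mat i a b = (1 : Matrix (Fin c) (Fin c) ℂ) a b := rfl

theorem heis_val (c : ℕ) (v : Fin c → ℂ) (i : Fin 1) : (heis c).val v i = ∑ a, ‖v a‖ ^ 2 := by
  unfold HForm.val
  simp only [heis_mat]
  rw [Complex.re_sum]
  apply Finset.sum_congr rfl
  intro a _
  rw [Finset.sum_eq_single a]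
  · rw [Matrix.one_apply_eq, one_mul, Complex.mul_conj, Complex.ofReal_re, Complex.normSq_eq_norm_sq]
  · intro b _ hb
    rw [Matrix.one_apply_ne hb.symm]; simp
  · intro h; exact absurd (Finset.mem_univ a) h

theorem heis_range {c : ℕ} (hc : 1 ≤ c) : Set.range (heis c).val = {x : Fin 1 → ℝ | 0 ≤ x 0} := by
  ext x
  constructor
  · rintro ⟨v, rfl⟩
    show 0 ≤ (heis c).val v 0
    rw [heis_val]
    positivity
  · intro hx
    have hx : 0 ≤ x 0 := hx
    refine ⟨Pi.single ⟨0, hc⟩ ((√(x 0) : ℝ) : ℂ), ?_⟩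
    funext i
    rw [heis_val, Finset.sum_eq_single ⟨0, hc⟩]
    · rw [Pi.single_eq_same, Complex.norm_real, Real.norm_of_nonneg (Real.sqrt_nonneg _), Real.sq_sqrt hx]
      congr 1
      exact (Subsingleton.elim _ _)
    · intro b _ hb
      rw [Pi.single_eq_of_ne hb]; simp
    · intro h; exact absurd (Finset.mem_univ _) h

theorem heis_cone {c : ℕ} (hc : 1 ≤ c) : (heis c).ConeCond := by
  refine ⟨?_, ?_, ?_, ?_⟩
  · rw [heis_range hc]
    intro x hx y hy a b ha hb hab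
    show 0 ≤ (a • x + b • y) 0
    have hx : 0 ≤ x 0 := hx
    have hy : 0 ≤ y 0 := hy
    simp only [Pi.add_apply, Pi.smul_apply, smul_eq_mul]
    positivity
  · rw [heis_range hc]
    intro x hx hx'
    have hx : 0 ≤ x 0 := hx
    have hx' : 0 ≤ (-x) 0 := hx'
    funext i
    have hi : i = 0 := Subsingleton.elim _ _
    rw [hi]
    simp only [Pi.neg_apply] at hx'
    show x 0 = 0
    linarith
  · rw [heis_range hc]
    refine ⟨fun _ => 1, ?_⟩
    rw [mem_interior]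
    refine ⟨{x : Fin 1 → ℝ | 0 < x 0}, ?_, ?_, ?_⟩
    · intro x hx
      have hx : 0 < x 0 := hx
      exact hx.le
    · exact isOpen_lt continuous_const (continuous_apply 0)
    · show (0 : ℝ) < 1
      norm_num
  · intro v hv hcon
    apply hv
    have h1 : ∑ a, ‖v a‖ ^ 2 = 0 := by rw [← heis_val c v 0, hcon]; rfl
    rw [Finset.sum_eq_zero_iff_of_nonneg (fun _ _ => by positivity)] at h1
    funext a
    have h2 := h1 a (Finset.mem_univ a)
    simpa using h2

theorem mem_heis (c : ℕ) (z : E 1 c) : z ∈ (heis c).M ↔ (z.1 0).im = ∑ a, ‖z.2 a‖ ^ 2 := by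
  constructor
  · intro h
    rw [h 0, heis_val]
  · intro h i
    have hi : i = 0 := Subsingleton.elim _ _
    rw [heis_val, ← h, hi]

/-! ### the Cayley transform -/

open Pool.Agent.H892PB

/-- Cayley transform from the Siegel domain of `ℂ²` to the ball. -/
noncomputable def psi (z : E 1 1) : P :=
  ((z.1 0 - Complex.I) * (z.1 0 + Complex.I)⁻¹, 2 * z.2 0 * (z.1 0 + Complex.I)⁻¹)

/-- closed Siegel domain -/
def Dc : Set (E 1 1) := {z | ‖z.2 0‖ ^ 2 ≤ (z.1 0).im}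

/-- open Siegel domain -/
def Do : Set (E 1 1) := {z | ‖z.2 0‖ ^ 2 < (z.1 0).im}

theorem Do_sub {z : E 1 1} (hz : z ∈ Do) : z ∈ Dc := by
  have h : ‖z.2 0‖ ^ 2 < (z.1 0).im := hz
  exact h.le

theorem den_ne {z : E 1 1} (hz : z ∈ Dc) : z.1 0 + Complex.I ≠ 0 := by
  intro h
  have h1 := congrArg Complex.im h
  simp only [Complex.add_im, Complex.I_im, Complex.zero_im] at h1
  have h2 : ‖z.2 0‖ ^ 2 ≤ (z.1 0).im := hz
  have h3 := sq_nonneg ‖z.2 0‖
  linarith

theorem nsq_psi {z : E 1 1} (hz : z ∈ Dc) :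
    nsq (psi z) = 1 - 4 * ((z.1 0).im - ‖z.2 0‖ ^ 2) / ‖z.1 0 + Complex.I‖ ^ 2 := by
  have h := norm_pos_iff.2 (den_ne hz)
  have e1 : ‖z.1 0 - Complex.I‖ ^ 2 = ‖z.1 0 + Complex.I‖ ^ 2 - 4 * (z.1 0).im := by
    rw [← Complex.normSq_eq_norm_sq, ← Complex.normSq_eq_norm_sq, Complex.normSq_apply, Complex.normSq_apply]
    simp
    ring
  unfold nsq psi
  simp only [norm_mul, norm_inv, mul_pow, inv_pow, e1, Complex.norm_ofNat]
  field_simp
  ring

theorem nsq_psi_le {z : E 1 1} (hz : z ∈ Dc) : nsq (psi z) ≤ 1 := by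
  rw [nsq_psi hz]
  have h1 : ‖z.2 0‖ ^ 2 ≤ (z.1 0).im := hz
  have h2 : 0 ≤ 4 * ((z.1 0).im - ‖z.2 0‖ ^ 2) / ‖z.1 0 + Complex.I‖ ^ 2 :=
    div_nonneg (by linarith) (by positivity)
  linarith

theorem nsq_psi_lt {z : E 1 1} (hz : z ∈ Do) : nsq (psi z) < 1 := by
  have h1 : ‖z.2 0‖ ^ 2 < (z.1 0).im := hz
  have hz' : z ∈ Dc := h1.le
  rw [nsq_psi hz']
  have h := norm_pos_iff.2 (den_ne hz')
  have h2 : 0 < 4 * ((z.1 0).im - ‖z.2 0‖ ^ 2) / ‖z.1 0 + Complex.I‖ ^ 2 :=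
    div_pos (by linarith) (by positivity)
  linarith

theorem heis1_sub {z : E 1 1} (hz : z ∈ (heis 1).M) : z ∈ Dc := by
  rw [mem_heis] at hz
  simp only [Finset.univ_unique, Fin.default_eq_zero, Finset.sum_singleton] at hz
  exact hz.ge

theorem nsq_psi_eq {z : E 1 1} (hz : z ∈ (heis 1).M) : nsq (psi z) = 1 := by
  rw [nsq_psi (heis1_sub hz)]
  rw [mem_heis] at hz
  simp only [Finset.univ_unique, Fin.default_eq_zero, Finset.sum_singleton] at hz
  rw [hz]; simp

theorem psi_contDiffOn (t : ℕ) : ContDiffOn ℝ (t : WithTop ℕ∞) psi Dc := by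
  have h1 : ContDiff ℝ (t : WithTop ℕ∞) (fun z : E 1 1 => z.1 0) := by fun_prop
  have h2 : ContDiff ℝ (t : WithTop ℕ∞) (fun z : E 1 1 => z.2 0) := by fun_prop
  have h3 : ContDiffOn ℝ (t : WithTop ℕ∞) (fun z : E 1 1 => (z.1 0 + Complex.I)⁻¹) Dc :=
    (h1.add contDiff_const).contDiffOn.inv (fun z hz => den_ne hz)
  exact (((h1.sub contDiff_const).contDiffOn.mul h3)).prodMk ((contDiff_const.mul h2).contDiffOn.mul h3)

theorem psi_diffOn : DifferentiableOn ℂ psi Do := by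
  have h1 : Differentiable ℂ (fun z : E 1 1 => z.1 0) := by fun_prop
  have h2 : Differentiable ℂ (fun z : E 1 1 => z.2 0) := by fun_prop
  have h3 : DifferentiableOn ℂ (fun z : E 1 1 => (z.1 0 + Complex.I)⁻¹) Do :=
    (h1.add_const _).differentiableOn.inv (fun z hz => den_ne (Do_sub hz))
  exact (((h1.sub_const _).differentiableOn.mul h3)).prodMk ((h2.const_mul _).differentiableOn.mul h3)

/-- the map between the Siegel domains -/
noncomputable def G {c : ℕ} (hc : 1 ≤ c) (cc : ℝ) (f : Fin c → P → ℂ) (z : E 1 1) : E 1 c :=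
  (fun _ => Complex.I * (1 + f ⟨0, hc⟩ (psi z)) * (1 - f ⟨0, hc⟩ (psi z))⁻¹,
   fun e => Complex.I * (if e = ⟨0, hc⟩ then (cc : ℂ) * Complex.exp (psi z).1 else f e (psi z)) *
    (1 - f ⟨0, hc⟩ (psi z))⁻¹)

theorem cayley_im (a : ℂ) :
    (Complex.I * (1 + a) * (1 - a)⁻¹).im = (1 - ‖a‖ ^ 2) * (‖1 - a‖ ^ 2)⁻¹ := by
  rw [← Complex.normSq_eq_norm_sq, ← Complex.normSq_eq_norm_sq, Complex.mul_im, Complex.inv_re, Complex.inv_im]
  simp only [Complex.mul_re, Complex.mul_im, Complex.I_re, Complex.I_im, Complex.add_re, Complex.add_im,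
    Complex.one_re, Complex.one_im, Complex.sub_re, Complex.sub_im, Complex.normSq_apply a]
  ring

theorem one_sub_ne {a : ℂ} (ha : ‖a‖ < 1) : 1 - a ≠ 0 := by
  intro h
  have h1 : a = 1 := (sub_eq_zero.1 h).symm
  rw [h1] at ha
  simp at ha

theorem G_maps {c : ℕ} (hc : 1 ≤ c) (cc : ℝ) (f : Fin c → P → ℂ)
    (h4 : ∀ e z, nsq z ≤ 1 → ‖f e z‖ < 1)
    (h3 : ∀ z, nsq z = 1 → ‖(cc : ℂ) * Complex.exp z.1‖ ^ 2 + ∑ e, ‖f e z‖ ^ 2 = 1)
    {z : E 1 1} (hz : z ∈ (heis 1).M) : G hc cc f z ∈ (heis c).M := by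
  rw [mem_heis]
  have hn := nsq_psi_eq hz
  have ha := h4 ⟨0, hc⟩ (psi z) hn.le
  have hs := h3 (psi z) hn
  have e1 : ∑ e, ‖(G hc cc f z).2 e‖ ^ 2 =
      (∑ e : Fin c, ‖(if e = ⟨0, hc⟩ then (cc : ℂ) * Complex.exp (psi z).1 else f e (psi z))‖ ^ 2) *
        (‖1 - f ⟨0, hc⟩ (psi z)‖ ^ 2)⁻¹ := by
    rw [Finset.sum_mul]
    apply Finset.sum_congr rfl
    intro e _
    simp only [G, norm_mul, Complex.norm_I, one_mul, norm_inv, mul_pow, inv_pow]
  rw [e1]
  show (Complex.I * (1 + f ⟨0, hc⟩ (psi z)) * (1 - f ⟨0, hc⟩ (psi z))⁻¹).im = _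
  rw [cayley_im]
  congr 1
  rw [← Finset.add_sum_erase _ _ (Finset.mem_univ (⟨0, hc⟩ : Fin c))] at hs ⊢
  rw [if_pos rfl]
  have e2 : ∑ e ∈ Finset.univ.erase (⟨0, hc⟩ : Fin c),
      ‖(if e = ⟨0, hc⟩ then (cc : ℂ) * Complex.exp (psi z).1 else f e (psi z))‖ ^ 2 =
      ∑ e ∈ Finset.univ.erase (⟨0, hc⟩ : Fin c), ‖f e (psi z)‖ ^ 2 := by
    apply Finset.sum_congr rfl
    intro e he
    rw [if_neg (Finset.ne_of_mem_erase he)]
  rw [e2]
  linarith

theorem G_contDiffOn {c : ℕ} (hc : 1 ≤ c) (cc : ℝ) (f : Fin c → P → ℂ) (t : ℕ)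
    (h1 : ∀ e, ContDiffOn ℝ (t : WithTop ℕ∞) (f e) {z | nsq z ≤ 1})
    (h4 : ∀ e z, nsq z ≤ 1 → ‖f e z‖ < 1) : ContDiffOn ℝ (t : WithTop ℕ∞) (G hc cc f) Dc := by
  have hf : ∀ e, ContDiffOn ℝ (t : WithTop ℕ∞) (fun z => f e (psi z)) Dc := fun e =>
    (h1 e).comp (psi_contDiffOn t) (fun z hz => nsq_psi_le hz)
  have hp1 : ContDiffOn ℝ (t : WithTop ℕ∞) (fun z => (psi z).1) Dc := (psi_contDiffOn t).fst
  have he : ContDiffOn ℝ (t : WithTop ℕ∞) (fun z => (cc : ℂ) * Complex.exp (psi z).1) Dc :=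
    contDiffOn_const.mul hp1.cexp
  have hi : ContDiffOn ℝ (t : WithTop ℕ∞) (fun z => (1 - f ⟨0, hc⟩ (psi z))⁻¹) Dc :=
    (contDiffOn_const.sub (hf _)).inv (fun z hz => one_sub_ne (h4 _ _ (nsq_psi_le hz)))
  refine ContDiffOn.prodMk ?_ ?_
  · rw [contDiffOn_pi]
    intro _
    exact (contDiffOn_const.mul (contDiffOn_const.add (hf _))).mul hi
  · rw [contDiffOn_pi]
    intro e
    by_cases h : e = ⟨0, hc⟩
    · simp only [h, if_true]
      exact (contDiffOn_const.mul he).mul hi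
    · simp only [h, if_false]
      exact (contDiffOn_const.mul (hf e)).mul hi

theorem G_diffOn {c : ℕ} (hc : 1 ≤ c) (cc : ℝ) (f : Fin c → P → ℂ)
    (h2 : ∀ e, DifferentiableOn ℂ (f e) {z | nsq z < 1})
    (h4 : ∀ e z, nsq z ≤ 1 → ‖f e z‖ < 1) : DifferentiableOn ℂ (G hc cc f) Do := by
  have hf : ∀ e, DifferentiableOn ℂ (fun z => f e (psi z)) Do := fun e =>
    (h2 e).comp psi_diffOn (fun z hz => nsq_psi_lt hz)
  have hp1 : DifferentiableOn ℂ (fun z => (psi z).1) Do := psi_diffOn.fst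
  have he : DifferentiableOn ℂ (fun z => (cc : ℂ) * Complex.exp (psi z).1) Do :=
    hp1.cexp.const_mul _
  have hi : DifferentiableOn ℂ (fun z => (1 - f ⟨0, hc⟩ (psi z))⁻¹) Do :=
    ((hf _).const_sub _).inv (fun z hz => one_sub_ne (h4 _ _ (nsq_psi_lt hz).le))
  refine DifferentiableOn.prodMk ?_ ?_
  · rw [differentiableOn_pi]
    intro _
    exact (((hf _).const_add _).const_mul _).mul hi
  · rw [differentiableOn_pi]
    intro e
    by_cases h : e = ⟨0, hc⟩
    · simp only [h, if_true]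
      exact (he.const_mul _).mul hi
    · simp only [h, if_false]
      exact ((hf e).const_mul _).mul hi

/-! ### the CR property -/

theorem Do_open : IsOpen Do := by
  have h1 : Continuous (fun z : E 1 1 => ‖z.2 0‖ ^ 2) := by fun_prop
  have h2 : Continuous (fun z : E 1 1 => (z.1 0).im) := by fun_prop
  exact isOpen_lt h1 h2

theorem Dc_convex : Convex ℝ Dc := by
  intro x hx y hy a b ha hb hab
  have hx : ‖x.2 0‖ ^ 2 ≤ (x.1 0).im := hx
  have hy : ‖y.2 0‖ ^ 2 ≤ (y.1 0).im := hy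
  show ‖(a • x + b • y).2 0‖ ^ 2 ≤ ((a • x + b • y).1 0).im
  simp only [Prod.snd_add, Prod.smul_snd, Pi.add_apply, Pi.smul_apply, Prod.fst_add, Prod.smul_fst,
    Complex.add_im, Complex.real_smul, Complex.im_ofReal_mul]
  have h1 : ‖(a : ℂ) * x.2 0 + (b : ℂ) * y.2 0‖ ≤ a * ‖x.2 0‖ + b * ‖y.2 0‖ := by
    refine (norm_add_le _ _).trans ?_
    rw [norm_mul, norm_mul, Complex.norm_real, Complex.norm_real, Real.norm_of_nonneg ha, Real.norm_of_nonneg hb]
  have h2 : ‖(a : ℂ) * x.2 0 + (b : ℂ) * y.2 0‖ ^ 2 ≤ (a * ‖x.2 0‖ + b * ‖y.2 0‖) ^ 2 :=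
    pow_le_pow_left₀ (norm_nonneg _) h1 2
  have h3 : (a * ‖x.2 0‖ + b * ‖y.2 0‖) ^ 2 ≤ a * ‖x.2 0‖ ^ 2 + b * ‖y.2 0‖ ^ 2 := by
    have hb' : b = 1 - a := by linarith
    have h5 : 0 ≤ a * b * (‖x.2 0‖ - ‖y.2 0‖) ^ 2 := by positivity
    rw [hb'] at h5 ⊢
    nlinarith
  nlinarith [mul_le_mul_of_nonneg_left hx ha, mul_le_mul_of_nonneg_left hy hb]

/-- shift upwards -/
noncomputable def up (z : E 1 1) (s : ℝ) : E 1 1 := (fun i => z.1 i + (s : ℂ) * Complex.I, z.2)

theorem Dc_closure {z : E 1 1} (hz : z ∈ Dc) : z ∈ closure Do := by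
  have hz : ‖z.2 0‖ ^ 2 ≤ (z.1 0).im := hz
  have h1 : Filter.Tendsto (fun s : ℝ => up z s) (nhdsWithin 0 (Set.Ioi 0)) (nhds z) := by
    have h2 : Continuous (fun s : ℝ => up z s) := by
      unfold up
      fun_prop
    have h3 := h2.tendsto 0
    have h4 : up z 0 = z := by
      unfold up
      simp
    rw [h4] at h3
    exact h3.mono_left nhdsWithin_le_nhds
  refine mem_closure_of_tendsto h1 ?_
  filter_upwards [self_mem_nhdsWithin] with s hs
  have hs : 0 < s := hs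
  show ‖(up z s).2 0‖ ^ 2 < ((up z s).1 0).im
  simp only [up, Complex.add_im, Complex.im_ofReal_mul, Complex.I_im, mul_one]
  linarith

theorem Dc_unique : UniqueDiffOn ℝ Dc := by
  apply uniqueDiffOn_convex Dc_convex
  refine ⟨(fun _ => Complex.I, fun _ => 0), ?_⟩
  rw [mem_interior]
  refine ⟨Do, fun z hz => Do_sub hz, Do_open, ?_⟩
  show ‖(0 : ℂ)‖ ^ 2 < Complex.I.im
  simp

theorem complex_linear {c : ℕ} (H : E 1 1 → E 1 c) (t : ℕ) (ht : 1 ≤ t)
    (h1 : ContDiffOn ℝ (t : WithTop ℕ∞) H Dc) (h2 : DifferentiableOn ℂ H Do) {z : E 1 1} (hz : z ∈ Dc)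
    (v : E 1 1) : fderivWithin ℝ H Dc z (Complex.I • v) = Complex.I • fderivWithin ℝ H Dc z v := by
  have hc : ContinuousOn (fderivWithin ℝ H Dc) Dc :=
    h1.continuousOn_fderivWithin Dc_unique (by exact_mod_cast ht)
  have hc1 : ContinuousOn (fun w => fderivWithin ℝ H Dc w (Complex.I • v)) Dc := hc.clm_apply continuousOn_const
  have hc3 : ContinuousOn (fun w => fderivWithin ℝ H Dc w v) Dc := hc.clm_apply continuousOn_const
  have hc2 : ContinuousOn (fun w => Complex.I • fderivWithin ℝ H Dc w v) Dc := hc3.const_smul Complex.I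
  have hO : ∀ w ∈ Do, fderivWithin ℝ H Dc w (Complex.I • v) = Complex.I • fderivWithin ℝ H Dc w v := by
    intro w hw
    have hn : Dc ∈ nhds w := Filter.mem_of_superset (Do_open.mem_nhds hw) (fun z hz => Do_sub hz)
    have hd : DifferentiableAt ℂ H w := (h2 w hw).differentiableAt (Do_open.mem_nhds hw)
    rw [fderivWithin_of_mem_nhds hn, hd.fderiv_restrictScalars ℝ]
    simp
  have : (nhdsWithin z Do).NeBot := mem_closure_iff_nhdsWithin_neBot.1 (Dc_closure hz)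
  have hsub : nhdsWithin z Do ≤ nhdsWithin z Dc := nhdsWithin_mono _ (fun z hz => Do_sub hz)
  have t1 := (hc1 z hz).mono_left hsub
  have t2 := (hc2 z hz).mono_left hsub
  refine tendsto_nhds_unique t1 (t2.congr' ?_)
  filter_upwards [self_mem_nhdsWithin] with w hw
  exact (hO w hw).symm

/-- smooth retraction of `ℂ²` onto the quadric -/
noncomputable def Phi (z : E 1 1) : E 1 1 :=
  (fun _ => ((z.1 0).re : ℂ) + ((‖z.2 0‖ ^ 2 : ℝ) : ℂ) * Complex.I, z.2)

theorem Phi_mem (z : E 1 1) : Phi z ∈ (heis 1).M := by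
  rw [mem_heis]
  simp only [Finset.univ_unique, Fin.default_eq_zero, Finset.sum_singleton]
  unfold Phi
  simp only [Complex.add_im, Complex.ofReal_im, Complex.im_ofReal_mul, Complex.I_im, mul_one, zero_add]

theorem Phi_eq {z : E 1 1} (hz : z ∈ (heis 1).M) : Phi z = z := by
  rw [mem_heis] at hz
  simp only [Finset.univ_unique, Fin.default_eq_zero, Finset.sum_singleton] at hz
  unfold Phi
  refine Prod.ext ?_ rfl
  funext i
  have hi : i = 0 := Subsingleton.elim _ _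
  rw [hi, ← hz]
  exact Complex.re_add_im _

theorem Phi_contDiff (t : ℕ) : ContDiff ℝ (t : WithTop ℕ∞) Phi := by
  have h1 : ContDiff ℝ (t : WithTop ℕ∞) (fun z : E 1 1 => z.1 0) := by fun_prop
  have h2 : ContDiff ℝ (t : WithTop ℕ∞) (fun z : E 1 1 => z.2 0) := by fun_prop
  have h3 : ContDiff ℝ (t : WithTop ℕ∞) (fun z : E 1 1 => ((z.1 0).re : ℂ)) :=
    Complex.ofRealCLM.contDiff.comp (Complex.reCLM.contDiff.comp h1)
  have h4 : ContDiff ℝ (t : WithTop ℕ∞) (fun z : E 1 1 => ((‖z.2 0‖ ^ 2 : ℝ) : ℂ)) :=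
    Complex.ofRealCLM.contDiff.comp (h2.norm_sq ℝ)
  refine ContDiff.prodMk ?_ contDiff_snd
  rw [contDiff_pi]
  intro _
  exact h3.add (h4.mul contDiff_const)

theorem isCR {c : ℕ} (H : E 1 1 → E 1 c) (t : ℕ) (ht : 1 ≤ t) (M₂ : Set (E 1 c))
    (h1 : ContDiffOn ℝ (t : WithTop ℕ∞) H Dc) (h2 : DifferentiableOn ℂ H Do)
    (h3 : ∀ z ∈ (heis 1).M, H z ∈ M₂) : IsCRMap t (heis 1).M M₂ (fun z => H (Phi z)) := by
  have hg : ContDiff ℝ (t : WithTop ℕ∞) (fun z => H (Phi z)) := by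
    rw [← contDiffOn_univ]
    exact h1.comp (Phi_contDiff t).contDiffOn (fun z _ => heis1_sub (Phi_mem z))
  have hH : ∀ z ∈ (heis 1).M, H (Phi z) = H z := fun z hz => by rw [Phi_eq hz]
  have key : ∀ z ∈ (heis 1).M, ∀ v ∈ Tan (heis 1).M z,
      fderiv ℝ (fun z => H (Phi z)) z v = fderivWithin ℝ H Dc z v ∧
        fderiv ℝ (fun z => H (Phi z)) z v ∈ Tan M₂ (H (Phi z)) := by
    rintro z hz v ⟨γ, hγ0, hγM, hγd⟩
    have hgd : HasFDerivAt (fun z => H (Phi z)) (fderiv ℝ (fun z => H (Phi z)) z) z :=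
      (hg.differentiable (by exact_mod_cast (by omega : t ≠ 0)) z).hasFDerivAt
    have hc1 : HasDerivAt (fun s => H (Phi (γ s))) (fderiv ℝ (fun z => H (Phi z)) z v) 0 := by
      have := hgd.comp_hasDerivAt_of_eq 0 hγd hγ0.symm
      exact this
    have hHd : HasFDerivWithinAt H (fderivWithin ℝ H Dc z) Dc z :=
      (h1.differentiableOn (by exact_mod_cast (by omega : t ≠ 0)) z (heis1_sub hz)).hasFDerivWithinAt
    have hc2 : HasDerivAt (fun s => H (γ s)) (fderivWithin ℝ H Dc z v) 0 := by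
      have hHd' : HasFDerivWithinAt H (fderivWithin ℝ H Dc z) Dc (γ 0) := by rw [hγ0]; exact hHd
      have h5 := hHd'.comp_hasDerivWithinAt (s := Set.univ) 0 hγd.hasDerivWithinAt
        (fun s _ => heis1_sub (hγM s))
      exact h5.hasDerivAt Filter.univ_mem
    have hfun : (fun s => H (Phi (γ s))) = fun s => H (γ s) := by
      funext s
      rw [Phi_eq (hγM s)]
    refine ⟨?_, fun s => H (Phi (γ s)), congrArg (fun z => H (Phi z)) hγ0, fun s => ?_, hc1⟩
    · rw [hfun] at hc1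
      exact hc1.unique hc2
    · show H (Phi (γ s)) ∈ M₂
      rw [Phi_eq (hγM s)]
      exact h3 _ (hγM s)
  refine ⟨fun z hz => ?_, fun z => H (Phi z), hg, fun _ _ => rfl, ?_⟩
  · show H (Phi z) ∈ M₂
    rw [hH z hz]
    exact h3 z hz
  rintro z hz v ⟨hv, w, hw, hvw⟩
  obtain ⟨k1, k2⟩ := key z hz v hv
  obtain ⟨k3, k4⟩ := key z hz w hw
  have hlin := complex_linear H t ht h1 h2 (heis1_sub hz)
  refine ⟨⟨k2, fderiv ℝ (fun z => H (Phi z)) z w, k4, ?_⟩, ?_⟩
  · rw [k1, k3, hvw, hlin]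
  · have h6 : Complex.I • v = -w := by
      rw [hvw, smul_smul, Complex.I_mul_I, neg_one_smul]
    rw [h6, map_neg, k1, k3, hvw, hlin, smul_smul, Complex.I_mul_I, neg_one_smul]

/-! ### non-rationality -/

theorem exp_quot (Q R : Polynomial ℂ) (hQ : Q ≠ 0) (a : ℂ) (ha : a ≠ 0) (b : ℝ) (hb : 0 ≤ b)
    (h : ∀ x : ℝ, a * Complex.exp (((x : ℂ) + b * Complex.I - Complex.I) * ((x : ℂ) + b * Complex.I + Complex.I)⁻¹) *
      Q.eval ((x : ℂ) + b * Complex.I) = R.eval ((x : ℂ) + b * Complex.I)) : False := by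
  set U : Set ℂ := {-Complex.I}ᶜ with hU
  have hUo : IsOpen U := isOpen_compl_singleton
  have hne : ∀ s ∈ U, s + Complex.I ≠ 0 := by
    intro s hs h0
    exact hs (eq_neg_of_add_eq_zero_left h0)
  have hF : AnalyticOnNhd ℂ (fun s => a * Complex.exp ((s - Complex.I) * (s + Complex.I)⁻¹) * Q.eval s) U := by
    apply DifferentiableOn.analyticOnNhd _ hUo
    have hi : DifferentiableOn ℂ (fun s : ℂ => (s + Complex.I)⁻¹) U :=
      (differentiable_id.add_const _).differentiableOn.inv (fun s hs => hne s hs)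
    have hm : DifferentiableOn ℂ (fun s : ℂ => (s - Complex.I) * (s + Complex.I)⁻¹) U :=
      (differentiable_id.sub_const _).differentiableOn.mul hi
    exact (hm.cexp.const_mul a).mul Q.differentiable.differentiableOn
  have hG : AnalyticOnNhd ℂ (fun s => R.eval s) U :=
    R.differentiable.differentiableOn.analyticOnNhd hUo
  have hconn : IsPreconnected U := by
    apply (isConnected_compl_singleton_of_one_lt_rank _ _).isPreconnected
    rw [Complex.rank_real_complex]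
    norm_num
  have h0 : ((b : ℂ) * Complex.I) ∈ U := by
    intro hcon
    have h1 : (b : ℂ) * Complex.I = -Complex.I := hcon
    have h2 := congrArg Complex.im h1
    simp at h2
    linarith
  have hfreq : ∃ᶠ z in nhdsWithin ((b : ℂ) * Complex.I) {((b : ℂ) * Complex.I)}ᶜ,
      (fun s => a * Complex.exp ((s - Complex.I) * (s + Complex.I)⁻¹) * Q.eval s) z = (fun s => R.eval s) z := by
    have ht : Filter.Tendsto (fun x : ℝ => (x : ℂ) + b * Complex.I) (nhdsWithin 0 {(0 : ℝ)}ᶜ)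
        (nhdsWithin ((b : ℂ) * Complex.I) {((b : ℂ) * Complex.I)}ᶜ) := by
      apply tendsto_nhdsWithin_of_tendsto_nhds_of_eventually_within
      · have hc : Continuous (fun x : ℝ => (x : ℂ) + b * Complex.I) := by fun_prop
        have h3 := hc.tendsto 0
        simp only [Complex.ofReal_zero, zero_add] at h3
        exact h3.mono_left nhdsWithin_le_nhds
      · filter_upwards [self_mem_nhdsWithin] with x hx
        intro hcon
        have h4 : (x : ℂ) + b * Complex.I = b * Complex.I := hcon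
        apply hx
        have h5 : (x : ℂ) = 0 := by linear_combination h4
        exact_mod_cast h5
    exact ht.frequently (Filter.Eventually.frequently (Filter.Eventually.of_forall h))
  have heq := hF.eqOn_of_preconnected_of_frequently_eq hG hconn h0 hfreq
  obtain ⟨T, hT, hTd⟩ := Q.exists_eq_pow_rootMultiplicity_mul_and_not_dvd hQ (-Complex.I)
  set m := Q.rootMultiplicity (-Complex.I) with hm
  have hT0 : T.eval (-Complex.I) ≠ 0 := by
    intro hcon
    exact hTd (Polynomial.dvd_iff_isRoot.2 hcon)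
  have hs : ∀ y : ℝ, 0 < y → ‖a‖ * Real.exp 1 * 2 ^ m * ‖T.eval (-Complex.I - 2 * Complex.I / y)‖ *
      (Real.exp y / y ^ m) = ‖R.eval (-Complex.I - 2 * Complex.I / y)‖ := by
    intro y hy
    have hy' : (y : ℂ) ≠ 0 := by exact_mod_cast hy.ne'
    have hmem : (-Complex.I - 2 * Complex.I / y) ∈ U := by
      intro hcon
      have h1 : -Complex.I - 2 * Complex.I / y = -Complex.I := hcon
      have h2 : 2 * Complex.I / y = 0 := by linear_combination -h1
      rw [div_eq_zero_iff] at h2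
      rcases h2 with h2 | h2
      · exact Complex.I_ne_zero (by simpa using h2)
      · exact hy' h2
    have h3 := heq hmem
    simp only at h3
    have h4 : (-Complex.I - 2 * Complex.I / y - Complex.I) * (-Complex.I - 2 * Complex.I / y + Complex.I)⁻¹ =
        ((y + 1 : ℝ) : ℂ) := by
      have e1 : -Complex.I - 2 * Complex.I / y + Complex.I = -(2 * Complex.I) / y := by ring
      have hI := Complex.I_ne_zero
      rw [e1]
      push_cast
      field_simp
      ring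
    rw [h4] at h3
    have h5 : Q.eval (-Complex.I - 2 * Complex.I / y) =
        (-(2 * Complex.I) / y) ^ m * T.eval (-Complex.I - 2 * Complex.I / y) := by
      conv_lhs => rw [hT]
      simp only [Polynomial.eval_mul, Polynomial.eval_pow, Polynomial.eval_sub, Polynomial.eval_X,
        Polynomial.eval_C]
      congr 2
      ring
    rw [← h3, h5]
    have hny : ‖(y : ℂ)‖ = y := by rw [Complex.norm_real, Real.norm_of_nonneg hy.le]
    rw [norm_mul, norm_mul, norm_mul, norm_pow, norm_div, norm_neg, norm_mul, Complex.norm_I, hny,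
      Complex.norm_exp, Complex.ofReal_re, Real.exp_add, Complex.norm_ofNat]
    rw [mul_one, div_pow]
    field_simp
  have hlim : Filter.Tendsto (fun y : ℝ => -Complex.I - 2 * Complex.I / (y : ℂ)) Filter.atTop
      (nhds (-Complex.I)) := by
    have h1 : Filter.Tendsto (fun y : ℝ => ((y⁻¹ : ℝ) : ℂ)) Filter.atTop (nhds ((0 : ℝ) : ℂ)) :=
      (Complex.continuous_ofReal.tendsto 0).comp tendsto_inv_atTop_zero
    have h2 : Filter.Tendsto (fun y : ℝ => -Complex.I - 2 * Complex.I * ((y⁻¹ : ℝ) : ℂ)) Filter.atTop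
        (nhds (-Complex.I - 2 * Complex.I * ((0 : ℝ) : ℂ))) := tendsto_const_nhds.sub (h1.const_mul _)
    simp only [Complex.ofReal_zero, mul_zero, sub_zero] at h2
    refine h2.congr (fun y => ?_)
    push_cast
    rw [div_eq_mul_inv]
  have hR : Filter.Tendsto (fun y : ℝ => ‖R.eval (-Complex.I - 2 * Complex.I / (y : ℂ))‖) Filter.atTop
      (nhds ‖R.eval (-Complex.I)‖) :=
    ((R.continuous.tendsto _).comp hlim).norm
  have hTl : Filter.Tendsto (fun y : ℝ => ‖a‖ * Real.exp 1 * 2 ^ m * ‖T.eval (-Complex.I - 2 * Complex.I / (y : ℂ))‖)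
      Filter.atTop (nhds (‖a‖ * Real.exp 1 * 2 ^ m * ‖T.eval (-Complex.I)‖)) :=
    ((T.continuous.tendsto _).comp hlim).norm.const_mul _
  have hpos : 0 < ‖a‖ * Real.exp 1 * 2 ^ m * ‖T.eval (-Complex.I)‖ := by
    have h1 := norm_pos_iff.2 ha
    have h2 := norm_pos_iff.2 hT0
    positivity
  have hbig := hTl.pos_mul_atTop hpos (Real.tendsto_exp_div_pow_atTop m)
  have hbig' : Filter.Tendsto (fun y : ℝ => ‖R.eval (-Complex.I - 2 * Complex.I / (y : ℂ))‖) Filter.atTop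
      Filter.atTop := by
    refine hbig.congr' ?_
    filter_upwards [Filter.eventually_gt_atTop 0] with y hy
    exact hs y hy
  exact not_tendsto_nhds_of_tendsto_atTop hbig' _ hR

/-- restriction of a polynomial to a line `z'' = w` -/
noncomputable def slice (q : MvPolynomial (Fin 1 ⊕ Fin 1) ℂ) (w : ℂ) : Polynomial ℂ :=
  MvPolynomial.aeval (Sum.elim (fun _ => Polynomial.X) (fun _ => Polynomial.C w)) q

theorem eval_slice (q : MvPolynomial (Fin 1 ⊕ Fin 1) ℂ) (w s : ℂ) :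
    (slice q w).eval s = MvPolynomial.eval (Sum.elim (fun _ => s) (fun _ => w)) q := by
  unfold slice
  induction q using MvPolynomial.induction_on with
  | C a => simp
  | add p q hp hq => simp only [map_add, Polynomial.eval_add, hp, hq]
  | mul_X p i hp =>
    simp only [map_mul, Polynomial.eval_mul, hp, MvPolynomial.aeval_X, MvPolynomial.eval_X]
    congr 1
    rcases i with i | i <;> simp

theorem exists_slice {q : MvPolynomial (Fin 1 ⊕ Fin 1) ℂ} (hq : q ≠ 0) : ∃ w, slice q w ≠ 0 := by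
  by_contra hcon
  push Not at hcon
  apply hq
  apply MvPolynomial.funext
  intro x
  have h1 := eval_slice q (x (Sum.inr 0)) (x (Sum.inl 0))
  rw [hcon] at h1
  have h2 : x = Sum.elim (fun _ => x (Sum.inl 0)) (fun _ => x (Sum.inr 0)) := by
    funext i
    rcases i with i | i
    · have : i = 0 := Subsingleton.elim _ _
      rw [this]; rfl
    · have : i = 0 := Subsingleton.elim _ _
      rw [this]; rfl
  rw [h2, ← h1]
  simp

theorem mem_line (x : ℝ) (w : ℂ) :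
    ((fun _ => (x : ℂ) + ((‖w‖ ^ 2 : ℝ) : ℂ) * Complex.I, fun _ => w) : E 1 1) ∈ (heis 1).M := by
  rw [mem_heis]
  simp only [Finset.univ_unique, Finset.sum_singleton, Complex.add_im, Complex.ofReal_im,
    Complex.im_ofReal_mul, Complex.I_im, mul_one, zero_add]

theorem vanish {q : MvPolynomial (Fin 1 ⊕ Fin 1) ℂ}
    (h : ∀ z ∈ (heis 1).M, MvPolynomial.eval (Sum.elim z.1 z.2) q = 0) : q = 0 := by
  by_contra hq
  obtain ⟨w, hw⟩ := exists_slice hq
  apply hw
  apply Polynomial.eq_zero_of_infinite_isRoot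
  have hinj : Function.Injective (fun x : ℝ => (x : ℂ) + ((‖w‖ ^ 2 : ℝ) : ℂ) * Complex.I) := by
    intro x y hxy
    have h1 : (x : ℂ) = (y : ℂ) := add_right_cancel hxy
    exact Complex.ofReal_injective h1
  have hroot : ∀ x : ℝ, (slice q w).IsRoot ((x : ℂ) + ((‖w‖ ^ 2 : ℝ) : ℂ) * Complex.I) := by
    intro x
    have h1 := h ((fun _ => (x : ℂ) + ((‖w‖ ^ 2 : ℝ) : ℂ) * Complex.I, fun _ => w) : E 1 1) (mem_line x w)
    generalize hs : (x : ℂ) + ((‖w‖ ^ 2 : ℝ) : ℂ) * Complex.I = s at h1 ⊢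
    rw [Polynomial.IsRoot.def, eval_slice]
    exact h1
  refine (Set.infinite_range_of_injective hinj).mono ?_
  rintro s ⟨x, rfl⟩
  exact hroot x

theorem not_rational {c : ℕ} (hc : 1 ≤ c) (cc : ℝ) (hcc : 0 < cc) (f : Fin c → P → ℂ)
    (h4 : ∀ e z, nsq z ≤ 1 → ‖f e z‖ < 1) :
    ¬ IsRationalOn (heis 1).M (fun z => G hc cc f (Phi z)) := by
  rintro ⟨hA, hB⟩
  obtain ⟨p₁, q₁, hq₁, e₁⟩ := hA 0
  obtain ⟨p₂, q₂, hq₂, e₂⟩ := hB ⟨0, hc⟩
  have f1 : ∀ z ∈ (heis 1).M, (G hc cc f (Phi z)).1 0 + Complex.I =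
      2 * Complex.I * (1 - f ⟨0, hc⟩ (psi z))⁻¹ := by
    intro z hz
    rw [Phi_eq hz]
    have hn := one_sub_ne (h4 ⟨0, hc⟩ (psi z) (nsq_psi_eq hz).le)
    unfold G
    field_simp
    ring
  have f2 : ∀ z ∈ (heis 1).M, (G hc cc f (Phi z)).2 ⟨0, hc⟩ =
      Complex.I * ((cc : ℂ) * Complex.exp (psi z).1) * (1 - f ⟨0, hc⟩ (psi z))⁻¹ := by
    intro z hz
    rw [Phi_eq hz]
    simp only [G, if_true]
  have hp : p₁ + MvPolynomial.C Complex.I * q₁ ≠ 0 := by
    intro hcon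
    apply hq₁
    apply vanish
    intro z hz
    have h5 := e₁ z hz
    have h6 := congrArg (MvPolynomial.eval (Sum.elim z.1 z.2)) hcon
    simp only [map_add, map_mul, MvPolynomial.eval_C, map_zero] at h6
    have h7 := f1 z hz
    have h8 : ((G hc cc f (Phi z)).1 0 + Complex.I) * MvPolynomial.eval (Sum.elim z.1 z.2) q₁ = 0 := by
      simp only at h5
      rw [add_mul, h5]
      exact h6
    rw [h7] at h8
    have hn := one_sub_ne (h4 ⟨0, hc⟩ (psi z) (nsq_psi_eq hz).le)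
    rcases mul_eq_zero.1 h8 with h9 | h9
    · exfalso
      have : 2 * Complex.I * (1 - f ⟨0, hc⟩ (psi z))⁻¹ ≠ 0 :=
        mul_ne_zero (mul_ne_zero two_ne_zero Complex.I_ne_zero) (inv_ne_zero hn)
      exact this h9
    · exact h9
  have hQ : (p₁ + MvPolynomial.C Complex.I * q₁) * q₂ ≠ 0 := mul_ne_zero hp hq₂
  obtain ⟨w, hw⟩ := exists_slice hQ
  refine exp_quot (slice ((p₁ + MvPolynomial.C Complex.I * q₁) * q₂) w)
    (slice (MvPolynomial.C 2 * p₂ * q₁) w) hw (cc : ℂ) (Complex.ofReal_ne_zero.2 hcc.ne') (‖w‖ ^ 2)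
    (by positivity) ?_
  intro x
  have hz := mem_line x w
  have g1 := e₁ _ hz
  have g2 := e₂ _ hz
  have g3 := f1 _ hz
  have g4 := f2 _ hz
  have hn := one_sub_ne (h4 ⟨0, hc⟩ (psi ((fun _ => (x : ℂ) + ((‖w‖ ^ 2 : ℝ) : ℂ) * Complex.I, fun _ => w) : E 1 1))
    (nsq_psi_eq hz).le)
  rw [eval_slice, eval_slice]
  simp only [map_add, map_mul, MvPolynomial.eval_C] at g1 g2 g3 g4 ⊢
  rw [← g1, ← g2, ← add_mul, g3, g4]
  simp only [psi]
  field_simp

/-- Question Q2 has a negative answer, and so has the analogous question with any smoothness class that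
depends only on the dimension of the source space. -/
theorem result : ∀ s : ℕ → ℕ, ¬ Rationality s := by
  intro s hs
  obtain ⟨c, cc, hc, hcc, f, h1, h2, h3⟩ := data_fin (max (s 2) 1)
  have h4 : ∀ e z, nsq z ≤ 1 → ‖f e z‖ < 1 := fun e z hz =>
    data_lt_one cc hcc f (fun e => (h1 e).continuousOn) h2 h3 e z hz
  have hcr := isCR (G hc cc f) (max (s 2) 1) (le_max_right _ _) (heis c).M
    (G_contDiffOn hc cc f _ h1 h4) (G_diffOn hc cc f h2 h4) (fun z hz => G_maps hc cc f h4 h3 hz)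
  obtain ⟨m1, g, m2, m3, m4⟩ := hcr
  refine not_rational hc cc hcc f h4 (hs 1 1 1 c le_rfl le_rfl le_rfl hc (heis 1) (heis c)
    (heis_cone le_rfl) (heis_cone hc) _ ⟨m1, g, m2.of_le ?_, m3, m4⟩)
  exact_mod_cast le_max_left (s 2) 1

end Pool.Agent.Results.MP_640201_an.NotRational
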